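import Pool.Agent.R819.Diag

/-!
# Diagonals of separately absolutely continuous maps into metric spaces are absolute Baire-one

Let `f : [0,1]² → Z` be separately absolutely continuous, `Z` a metric space. The sections `f (x, ·)`
have small variation near `x`, with a bound which is uniform near each point of a comeager set. Choose
a dense sequence `t 0, t 1, …` in this set. Then `g n (x) = f (a, b)`, where `b` is essentially the
largest of `t 0, …, t n` on the left of `x` and `a = x`, except that on short intervals
on the right of the points `t i` the path `x ↦ (a, b)` first moves vertically and then horizontally, so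
that `g n` is continuous. The lengths of these intervals are chosen so small that a new point `t n` in
the short interval of `t i` contributes at most `2^{-i} + 2^{-n}`, so all sums are finite.
-/

set_option autoImplicit false

open Set Topology Filter

namespace Pool.Agent.Results.MP_680d10_gt.DiagonalAbsBaireOne

open Pool.Agent.R819.Diag

universe u

/-- **For every metric space `Z` and every separately absolutely continuous `f : [0,1]² → Z` the
diagonal `x ↦ f (x, x)` is an absolute Baire-one map.** -/
theorem result : ∀ (Z : Type u) [MetricSpace Z] (f : unitInterval × unitInterval → Z),
    SepAbsCont f → AbsBaireOne fun x => f (x, x) := by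
  intro Z _ f hf
  let φ : ℝ → unitInterval := projIcc 0 1 zero_le_one
  let F : ℝ → ℝ → Z := fun x y => f (φ x, φ y)
  obtain ⟨G, hG⟩ := main (F := F) (fun y => sv_of_ac (hf.1 (φ y))) (fun x => sv_of_ac (hf.2 (φ x)))
  refine ⟨fun n x => G n x, fun n => ?_, fun x => ⟨?_, ?_⟩⟩
  · rw [continuous_iff_continuousAt]
    intro x
    exact ((hG x x.2.1).1 n).comp continuous_subtype_val.continuousAt
  · have h1 := (hG x x.2.1).2.1
    have h2 : F x x = f (x, x) := by
      simp only [F, φ, projIcc_val]
    rwa [h2] at h1
  · simpa only [dist_comm] using (hG x x.2.1).2.2

end Pool.Agent.Results.MP_680d10_gt.DiagonalAbsBaireOne
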